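import Pool.Agent.Helper6.RH.Count3

/-!
A positive proportion of the tuples of forms does not represent given values, some of which may be
zero (the version for nonzero values is `Pool/Agent/Helper6/RH/{Count2,Count3}.lean`).
-/

namespace Pool.Agent.Helper10.RV

open Finset Pool.Agent.Helper6.RH

section main
variable {F : Type*} [Field F] [Fintype F] [DecidableEq F] {n : ℕ} {ι : Type*} [Fintype ι]
  [DecidableEq ι] (d : ι → ℕ)

theorem sum_mid (hd : ∀ i, 1 ≤ d i) (u : ι → F) (x y : Fin (n + 1) → F) (hx : x ≠ 0)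
    (hxy : ∀ t : F, y ≠ t • x) (i0 i1 : ι) (h01 : i0 ≠ i1) (h0 : 2 ≤ d i0) (hu1 : 2 ≤ d i1 ∨ u i1 ≠ 0)
    (S : Finset (Fin (n + 1) → F))
    (hS : ∀ z ∈ S, ∃ a b : F, a ≠ 0 ∧ b ≠ 0 ∧ z = a • x + b • y) :
    ∑ z ∈ S, f3 d u x y z ≤ 1 * (A2 d u x y).card := by
  classical
  by_cases h1 : 2 ≤ d i1
  · refine sum_le_of S _ (Fintype.card F ^ 2) _ 1 (by positivity) (fun z hz => ?_) ?_
    · obtain ⟨a, b, ha, hb, rfl⟩ := hS z hz
      have h2 := card_A3_in d u x y hx hxy a b ha hb {i0, i1} (by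
        intro i hi
        rw [mem_insert, mem_singleton] at hi
        rcases hi with rfl | rfl
        · exact h0
        · exact h1)
      rw [card_pair h01] at h2
      rw [← h2]
      refine Nat.mul_le_mul_right _ (card_le_card ?_)
      intro c hc
      rw [mem_filter] at hc ⊢
      exact ⟨hc.1, fun i _ => hc.2 i⟩
    · rw [one_mul]
      have hsub : (S.filter fun z => f3 d u x y z ≠ 0) ⊆
          (univ : Finset (F × F)).image fun p => p.1 • x + p.2 • y := by
        intro z hz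
        rw [mem_filter] at hz
        obtain ⟨a, b, ha, hb, rfl⟩ := hS z hz.1
        rw [mem_image]
        exact ⟨(a, b), mem_univ _, rfl⟩
      refine (card_le_card hsub).trans (card_image_le.trans ?_)
      rw [card_univ, Fintype.card_prod, sq]
  · have h1' : d i1 = 1 := by have := hd i1; omega
    have hu : u i1 ≠ 0 := hu1.resolve_left h1
    refine sum_le_of S _ (Fintype.card F ^ 1) _ 1 (by positivity) (fun z hz => ?_) ?_
    · obtain ⟨a, b, ha, hb, rfl⟩ := hS z hz
      have h2 := card_A3_in d u x y hx hxy a b ha hb {i0} (by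
        intro i hi
        rw [mem_singleton] at hi
        rw [hi]
        exact h0)
      rw [card_singleton] at h2
      rw [← h2]
      refine Nat.mul_le_mul_right _ (card_le_card ?_)
      intro c hc
      rw [mem_filter] at hc ⊢
      exact ⟨hc.1, fun i _ => hc.2 i⟩
    · rw [one_mul, pow_one]
      have hsub : (S.filter fun z => f3 d u x y z ≠ 0) ⊆
          (univ : Finset F).image fun a => a • x + (1 - a) • y := by
        intro z hz
        rw [mem_filter] at hz
        obtain ⟨a, b, ha, hb, rfl⟩ := hS z hz.1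
        obtain ⟨c, hc⟩ := f3_ne_zero d hz.2
        rw [mem_image]
        refine ⟨a, mem_univ _, ?_⟩
        have h3 := (hc i1).2.2
        rw [ev_one_right h1', ev_smul_right, ev_smul_right, (hc i1).1, (hc i1).2.1, ← add_mul,
          h1', pow_one, pow_one] at h3
        have h4 : a + b = 1 := mul_right_cancel₀ hu (h3.trans (one_mul _).symm)
        rw [← h4, add_sub_cancel_left]
      refine (card_le_card hsub).trans (card_image_le.trans ?_)
      rw [card_univ]

theorem sum_z (hd : ∀ i, 1 ≤ d i) (hι : Fintype.card ι = n + 1) (u : ι → F)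
    (x y : Fin (n + 1) → F) (hx : x ≠ 0)
    (hxy : ∀ t : F, y ≠ t • x) (i0 i1 j : ι) (h01 : i0 ≠ i1) (h0 : 2 ≤ d i0)
    (hu1 : 2 ≤ d i1 ∨ u i1 ≠ 0) (huj : u j ≠ 0)
    (S : Finset (Fin (n + 1) → F)) :
    ∑ z ∈ S, f3 d u x y z ≤ (2 + 2 * d j) * (A2 d u x y).card := by
  classical
  set S1 := S.filter fun z => z ∉ Submodule.span F {x, y} with hS1
  set S2 := S.filter fun z => z ∈ Submodule.span F {x, y} with hS2
  set S3 := S2.filter fun z => ∃ a b : F, a ≠ 0 ∧ b ≠ 0 ∧ z = a • x + b • y with hS3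
  set S4 := S2.filter fun z => ¬∃ a b : F, a ≠ 0 ∧ b ≠ 0 ∧ z = a • x + b • y with hS4
  set S5 := S4.filter fun z => ∃ a : F, z = a • x with hS5
  set S6 := S4.filter fun z => ¬∃ a : F, z = a • x with hS6
  have e1 : ∑ z ∈ S2, f3 d u x y z + ∑ z ∈ S1, f3 d u x y z = ∑ z ∈ S, f3 d u x y z :=
    sum_filter_add_sum_filter_not S _ _
  have e2 : ∑ z ∈ S3, f3 d u x y z + ∑ z ∈ S4, f3 d u x y z = ∑ z ∈ S2, f3 d u x y z :=
    sum_filter_add_sum_filter_not S2 _ _
  have e3 : ∑ z ∈ S5, f3 d u x y z + ∑ z ∈ S6, f3 d u x y z = ∑ z ∈ S4, f3 d u x y z :=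
    sum_filter_add_sum_filter_not S4 _ _
  have b1 := sum_out d hd hι u x y S1 (fun z hz => (mem_filter.mp hz).2)
  have b3 := sum_mid d hd u x y hx hxy i0 i1 h01 h0 hu1 S3 (fun z hz => (mem_filter.mp hz).2)
  have b5 := sum_axis d u x y j (hd j) huj x (Or.inl rfl) S5
    (fun z hz => (mem_filter.mp hz).2)
  have b6 := sum_axis d u x y j (hd j) huj y (Or.inr rfl) S6 (fun z hz => by
    obtain ⟨h1, h2⟩ := mem_filter.mp hz
    obtain ⟨h3, h4⟩ := mem_filter.mp h1
    obtain ⟨-, h5⟩ := mem_filter.mp h3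
    obtain ⟨a, b, hab⟩ := Submodule.mem_span_pair.mp h5
    have hb : b ≠ 0 := by
      rintro rfl
      exact h2 ⟨a, by rw [← hab, zero_smul, add_zero]⟩
    have ha : a = 0 := by
      by_contra ha
      exact h4 ⟨a, b, ha, hb, hab.symm⟩
    exact ⟨b, by rw [← hab, ha, zero_smul, zero_add]⟩)
  calc ∑ z ∈ S, f3 d u x y z = ∑ z ∈ S3, f3 d u x y z + (∑ z ∈ S5, f3 d u x y z +
        ∑ z ∈ S6, f3 d u x y z) + ∑ z ∈ S1, f3 d u x y z := by rw [← e1, ← e2, ← e3]
    _ ≤ 1 * (A2 d u x y).card + (d j * (A2 d u x y).card + d j * (A2 d u x y).card) +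
        1 * (A2 d u x y).card := by gcongr
    _ = _ := by ring

theorem sum_MN (hd : ∀ i, 1 ≤ d i) (hι : Fintype.card ι = n + 1) (u : ι → F)
    (i0 i1 j : ι) (h01 : i0 ≠ i1) (h0 : 2 ≤ d i0)
    (hu1 : 2 ≤ d i1 ∨ u i1 ≠ 0) (huj : u j ≠ 0) :
    ∑ c : Tup F n d, M d u c * N d u c ≤ (2 + 2 * d j) * ∑ c : Tup F n d, M d u c := by
  have h1 : ∑ c : Tup F n d, M d u c * N d u c = ∑ p ∈ Ind F n, ∑ z ∈ NZ F n, f3 d u p.1 p.2 z := by
    unfold M N
    simp_rw [sum_mul_sum]
    rw [sum_comm]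
    refine sum_congr rfl fun p _ => ?_
    rw [sum_comm]
    refine sum_congr rfl fun z _ => ?_
    unfold f3
    rw [card_filter]
    rw [← sum_filter_add_sum_filter_not univ (fun c => c ∈ A2 d u p.1 p.2)]
    have h2 : ∑ c ∈ univ.filter (fun c => ¬ c ∈ A2 d u p.1 p.2),
        ((if c ∈ A2 d u p.1 p.2 then 1 else 0) * if c ∈ A1 d u z then 1 else 0) = 0 := by
      apply sum_eq_zero
      intro c hc
      rw [if_neg (mem_filter.mp hc).2, zero_mul]
    rw [h2, add_zero]
    have h3 : univ.filter (fun c => c ∈ A2 d u p.1 p.2) = A2 d u p.1 p.2 := by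
      ext c
      simp
    rw [h3]
    refine sum_congr rfl fun c hc => ?_
    rw [if_pos hc, one_mul]
    unfold A1
    simp only [mem_filter, mem_univ, true_and]
  rw [h1, sum_M', mul_sum]
  refine sum_le_sum fun p hp => ?_
  unfold Ind at hp
  rw [mem_filter] at hp
  exact sum_z d hd hι u p.1 p.2 hp.2.1 hp.2.2 i0 i1 j h01 h0 hu1 huj _

theorem few (hn : 1 ≤ n) (hd : ∀ i, 1 ≤ d i) (hι : Fintype.card ι = n + 1)
    (hq : 5 ≤ Fintype.card F) (u : ι → F)
    (i0 i1 j : ι) (h01 : i0 ≠ i1) (h0 : 2 ≤ d i0) (hu1 : 2 ≤ d i1 ∨ u i1 ≠ 0) (huj : u j ≠ 0) :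
    ((univ.filter fun c : Tup F n d => ∃ x, x ≠ 0 ∧ ∀ i, ev (c i) x = u i).card : ℝ) ≤
      (1 - 1 / (2 * (8 + 8 * (d j : ℝ)))) * Fintype.card (Tup F n d) := by
  classical
  set q := Fintype.card F with hq'
  set E := Fintype.card (Tup F n d) with hE
  have hEpos : 0 < E := Fintype.card_pos
  set P : ℝ := (q : ℝ) ^ (n + 1) with hP
  have hq5 : (5 : ℝ) ≤ q := by exact_mod_cast hq
  have hPq : (q : ℝ) ^ 2 ≤ P := by
    rw [hP]
    exact pow_le_pow_right₀ (by linarith) (by omega)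
  have hPpos : 0 < P := by rw [hP]; positivity
  -- sums
  have s1 : ((∑ c : Tup F n d, N d u c : ℕ) : ℝ) ≤ E := by
    have h1 := sum_N (F := F) (n := n) d u
    rw [hι] at h1
    have h2 : ((∑ c : Tup F n d, N d u c : ℕ) : ℝ) * P = (NZ F n).card * E := by
      rw [hP]
      exact_mod_cast h1
    have h3 : ((NZ F n).card : ℝ) + 1 = P := by
      rw [hP]
      exact_mod_cast card_NZ (F := F) (n := n)
    have h4 : ((∑ c : Tup F n d, N d u c : ℕ) : ℝ) * P ≤ E * P := by
      rw [h2, mul_comm (E : ℝ)]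
      exact mul_le_mul_of_nonneg_right (by linarith) (by positivity)
    exact le_of_mul_le_mul_right h4 hPpos
  have s2 : (3 / 4 : ℝ) * E ≤ ((∑ c : Tup F n d, M d u c : ℕ) : ℝ) := by
    have h1 := sum_M (F := F) (n := n) d hd u
    rw [hι] at h1
    have h2 : ((∑ c : Tup F n d, M d u c : ℕ) : ℝ) * (P * P) = (Ind F n).card * E := by
      rw [hP]
      exact_mod_cast h1
    have h3 : ((NZ F n).card : ℝ) + 1 = P := by
      rw [hP]
      exact_mod_cast card_NZ (F := F) (n := n)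
    have h4 : ((NZ F n).card : ℝ) * (P - q) ≤ (Ind F n).card := by
      have h5 := card_Ind (F := F) (n := n)
      have h6 : Fintype.card F ≤ Fintype.card F ^ (n + 1) := by
        calc Fintype.card F = Fintype.card F ^ 1 := (pow_one _).symm
          _ ≤ _ := Nat.pow_le_pow_right (by omega) (by omega)
      have h7 : ((Fintype.card F ^ (n + 1) - Fintype.card F : ℕ) : ℝ) = P - q := by
        rw [Nat.cast_sub h6, hP]
        push_cast
        rfl
      rw [← h7]
      exact_mod_cast h5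
    have h5 : (3 / 4 : ℝ) * E * (P * P) ≤ ((∑ c : Tup F n d, M d u c : ℕ) : ℝ) * (P * P) := by
      rw [h2]
      have h6 : (3 / 4 : ℝ) * (P * P) ≤ (Ind F n).card := by
        refine le_trans ?_ h4
        have h7 : ((NZ F n).card : ℝ) = P - 1 := by linarith
        rw [h7]
        nlinarith
      calc (3 / 4 : ℝ) * E * (P * P) = (3 / 4 : ℝ) * (P * P) * E := by ring
        _ ≤ _ := mul_le_mul_of_nonneg_right h6 (by positivity)
    exact le_of_mul_le_mul_right h5 (by positivity)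
  have s3 : ((∑ c : Tup F n d, M d u c : ℕ) : ℝ) ≤ E := by
    have h1 := sum_M (F := F) (n := n) d hd u
    rw [hι] at h1
    have h2 : ((∑ c : Tup F n d, M d u c : ℕ) : ℝ) * (P * P) = (Ind F n).card * E := by
      rw [hP]
      exact_mod_cast h1
    have h3 : ((Ind F n).card : ℝ) ≤ P * P := by
      have : (Ind F n).card ≤ Fintype.card F ^ (n + 1) * Fintype.card F ^ (n + 1) := by
        refine (card_le_univ _).trans ?_
        rw [Fintype.card_prod, Fintype.card_fun, Fintype.card_fin]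
      rw [hP]
      exact_mod_cast this
    have h4 : ((∑ c : Tup F n d, M d u c : ℕ) : ℝ) * (P * P) ≤ E * (P * P) := by
      rw [h2, mul_comm (E : ℝ)]
      exact mul_le_mul_of_nonneg_right h3 (by positivity)
    exact le_of_mul_le_mul_right h4 (by positivity)
  have s4 := sum_MN (F := F) (n := n) d hd hι u i0 i1 j h01 h0 hu1 huj
  set z := (univ.filter fun c : Tup F n d => N d u c = 0).card with hz
  set C : ℕ := 2 + 2 * d j with hC
  -- the inequality
  have key : 2 * C * (∑ c : Tup F n d, M d u c) + (2 * C) ^ 2 * E ≤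
      (2 * C) ^ 2 * ((∑ c : Tup F n d, N d u c) + z) + ∑ c : Tup F n d, M d u c * N d u c := by
    have h1 := sum_le_sum fun c (_ : c ∈ (univ : Finset (Tup F n d))) =>
      pointwise d u c (2 * C)
    rw [sum_add_distrib, sum_add_distrib, ← mul_sum, ← mul_sum, sum_add_distrib, sum_const,
      smul_eq_mul, ← card_filter, card_univ] at h1
    rw [mul_comm ((2 * C) ^ 2) E]
    exact h1
  have key' : (2 * C : ℝ) * ((∑ c : Tup F n d, M d u c : ℕ) : ℝ) + (2 * C) ^ 2 * E ≤
      (2 * C) ^ 2 * (((∑ c : Tup F n d, N d u c : ℕ) : ℝ) + z) + C * E := by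
    have h1 : ((∑ c : Tup F n d, M d u c * N d u c : ℕ) : ℝ) ≤ C * E := by
      calc ((∑ c : Tup F n d, M d u c * N d u c : ℕ) : ℝ) ≤ ((C * ∑ c : Tup F n d, M d u c : ℕ) : ℝ) := by
            exact_mod_cast s4
        _ = C * ((∑ c : Tup F n d, M d u c : ℕ) : ℝ) := by push_cast; rfl
        _ ≤ C * E := mul_le_mul_of_nonneg_left s3 (by positivity)
    have h2 : (2 * C : ℝ) * ((∑ c : Tup F n d, M d u c : ℕ) : ℝ) + (2 * C) ^ 2 * E ≤
      (2 * C) ^ 2 * (((∑ c : Tup F n d, N d u c : ℕ) : ℝ) + z) + ((∑ c : Tup F n d, M d u c * N d u c : ℕ) : ℝ) := by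
      exact_mod_cast key
    linarith
  have hC2 : (2 : ℝ) ≤ C := by
    rw [hC]
    push_cast
    have : (0 : ℝ) ≤ d j := by positivity
    linarith
  have hzlow : (E : ℝ) ≤ 8 * C * z := by
    have h1 : (2 * C : ℝ) * (3 / 4 * E) ≤ (2 * C) ^ 2 * z + C * E := by
      have h2 : (2 * C : ℝ) * (3 / 4 * E) ≤ 2 * C * ((∑ c : Tup F n d, M d u c : ℕ) : ℝ) :=
        mul_le_mul_of_nonneg_left s2 (by positivity)
      have h3 : ((2 * C : ℝ)) ^ 2 * ((∑ c : Tup F n d, N d u c : ℕ) : ℝ) ≤ (2 * C) ^ 2 * E :=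
        mul_le_mul_of_nonneg_left s1 (by positivity)
      linarith [key']
    have h4 : (C : ℝ) * E ≤ C * (8 * C * z) := by nlinarith
    exact le_of_mul_le_mul_left h4 (by linarith)
  -- conclusion
  have hcompl : (univ.filter fun c : Tup F n d => ∃ x, x ≠ 0 ∧ ∀ i, ev (c i) x = u i).card + z =
      E := by
    rw [hE, ← card_univ, ← card_filter_add_card_filter_not (s := (univ : Finset (Tup F n d)))
      (fun c : Tup F n d => ∃ x, x ≠ 0 ∧ ∀ i, ev (c i) x = u i)]
    congr 1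
    rw [hz]
    congr 1
    refine filter_congr fun c _ => ?_
    unfold N NZ A1
    rw [sum_eq_zero_iff]
    simp only [mem_filter, mem_univ, true_and, ite_eq_right_iff, one_ne_zero, imp_false, not_exists,
      not_and]
  have hcompl' : ((univ.filter fun c : Tup F n d =>
      ∃ x, x ≠ 0 ∧ ∀ i, ev (c i) x = u i).card : ℝ) = E - z := by
    rw [eq_sub_iff_add_eq]
    exact_mod_cast hcompl
  rw [hcompl']
  have hCr : (C : ℝ) = 2 + 2 * d j := by rw [hC]; push_cast; rfl
  have h8 : 2 * (8 + 8 * (d j : ℝ)) = 8 * C := by rw [hCr]; ring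
  rw [h8, sub_mul, one_mul]
  have h9 : 1 / (8 * (C : ℝ)) * E ≤ z := by
    rw [one_div, inv_mul_le_iff₀ (by linarith)]
    exact hzlow
  linarith

theorem few_ex (hn : 1 ≤ n) (hd : ∀ i, 1 ≤ d i) (hι : Fintype.card ι = n + 1)
    (hq : 5 ≤ Fintype.card F) (u : ι → F)
    (i0 i1 j : ι) (h01 : i0 ≠ i1) (h0 : 2 ≤ d i0) (hu1 : 2 ≤ d i1 ∨ u i1 ≠ 0) (huj : u j ≠ 0) :
    ∃ SS : Finset (Tup F n d), (∀ c, (∃ x, x ≠ 0 ∧ ∀ i, ev (c i) x = u i) → c ∈ SS) ∧
      (SS.card : ℝ) ≤ (1 - 1 / (2 * (8 + 8 * (d j : ℝ)))) * Fintype.card (Tup F n d) :=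
  ⟨_, fun c hc => mem_filter.mpr ⟨mem_univ c, hc⟩, few d hn hd hι hq u i0 i1 j h01 h0 hu1 huj⟩

end main

end Pool.Agent.Helper10.RV
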